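import Pool.Agent.Shared.RealForcing.Iter
import Pool.Agent.Shared.RealForcing.Meas

/-! A function that runs into every set of lists that is dense above another function. -/

namespace Pool.Agent.Lib.MP_6245c4_gt.FA

open Pool.Agent.Shared.RealForcing Set Filter MeasureTheory

/-- `t` extends `s` by values above `g`. -/
def Abv (s : List ℕ) (g : ℕ → ℕ) (t : List ℕ) : Prop :=
  s <+: t ∧ ∀ i, s.length ≤ i → i < t.length → g i ≤ t.getD i 0

/-- `t` extends `s` by the values of `g`. -/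
def Fol (s : List ℕ) (g : ℕ → ℕ) (t : List ℕ) : Prop :=
  s <+: t ∧ ∀ i, s.length ≤ i → i < t.length → t.getD i 0 = g i

def Dn (g : ℕ → ℕ) (D : List ℕ → Prop) : Prop := ∀ s, ∃ t, D t ∧ Abv s g t

def Fl (g : ℕ → ℕ) (D : List ℕ → Prop) : Prop := ∀ s, ∃ t, D t ∧ Fol s g t

theorem Fl.dn {g : ℕ → ℕ} {D : List ℕ → Prop} (h : Fl g D) : Dn g D := fun s =>
  let ⟨t, h1, h2, h3⟩ := h s; ⟨t, h1, h2, fun i hi hi' => (h3 i hi hi').ge⟩

theorem exists_fol (s : List ℕ) (g : ℕ → ℕ) {n : ℕ} (hn : s.length ≤ n) :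
    ∃ t, Fol s g t ∧ t.length = n := by
  induction hn with
  | refl => exact ⟨s, ⟨List.prefix_rfl, fun i h h' => absurd h' (not_lt.2 h)⟩, rfl⟩
  | @step m _ ih =>
    obtain ⟨t, ⟨h1, h2⟩, h3⟩ := ih
    refine ⟨t ++ [g m], ⟨h1.trans (List.prefix_append _ _), fun i hi hi' => ?_⟩, by simp [h3]⟩
    by_cases h : i < t.length
    · rw [getD_of_pre (List.prefix_append _ _) h]; exact h2 i hi h
    · obtain rfl : i = t.length := by simp at hi'; omega
      rw [getD_concat, h3]

theorem finite_lists (n β : ℕ) :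
    {u : List ℕ | u.length = n ∧ ∀ i, i < n → u.getD i 0 ≤ β}.Finite := by
  refine Finite.of_finite_image (f := fun u (i : Fin n) => u.getD i 0)
    ((Set.Finite.pi' fun _ : Fin n => finite_Iic β).subset ?_) ?_
  · rintro _ ⟨u, hu, rfl⟩ i
    exact hu.2 i i.2
  · rintro u ⟨h1, -⟩ v ⟨h2, -⟩ h
    refine List.ext_getElem (h1.trans h2.symm) fun i hi hi' => ?_
    have := congrFun h ⟨i, h1 ▸ hi⟩
    simpa [List.getD_eq_getElem?_getD, hi, hi'] using this

theorem Fl.bound {g : ℕ → ℕ} {D : List ℕ → Prop} (h : Fl g D) (n β m : ℕ) :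
    ∃ v, m ≤ v ∧ ∀ u : List ℕ, u.length = n → (∀ i, i < n → u.getD i 0 ≤ β) →
      ∃ t, D t ∧ Fol u g t ∧ t.length ≤ v := by
  choose t h1 h2 using h
  obtain ⟨v, hv⟩ := ((finite_lists n β).image fun u => (t u).length).bddAbove
  exact ⟨max m v, le_max_left _ _, fun u h3 h4 =>
    ⟨t u, h1 u, h2 u, le_max_of_le_right (hv ⟨u, ⟨h3, h4⟩, rfl⟩)⟩⟩

variable {Y : Type}

section

variable [MeasurableSpace Y] {g : Y → ℕ → ℕ} {D : List ℕ → Y → Prop}

theorem ms_abv (hg : Measurable g) (s t : List ℕ) : Measurable fun y => Abv s (g y) t := by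
  unfold Abv; fun_prop

theorem ms_fol (hg : Measurable g) (s t : List ℕ) : Measurable fun y => Fol s (g y) t :=
  measurable_const.and (Measurable.forall fun i => measurable_const.imp
    (measurable_const.imp (measurable_const.eq (hg.eval (a := i)))))

theorem ms_dn (hg : Measurable g) (hD : ∀ t, Measurable (D t)) :
    Measurable fun y => Dn (g y) fun t => D t y :=
  Measurable.forall fun s => Measurable.exists fun t => (hD t).and (ms_abv hg s t)

end

/-- `g'` dominates `g` and runs into every set given by `m` that is dense above `g`. -/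
def Gn (m : MeasurableSpace Y) (F : Filter Y) (g g' : Y → ℕ → ℕ) : Prop :=
  (∀ᶠ y in F, ∀ᶠ n in atTop, g y n ≤ g' y n) ∧
    ∀ D : List ℕ → Y → Prop, (∀ t, Measurable[m] (D t)) →
      ∀ᶠ y in F, (Dn (g y) fun t => D t y) → Fl (g' y) fun t => D t y

variable {m m' : MeasurableSpace Y} {F F' : Filter Y} {g g' g'' : Y → ℕ → ℕ}

theorem Gn.up (h : Gn m F g g') (hF : F' ≤ F) : Gn m F' g g' :=
  ⟨hF h.1, fun D hD => hF (h.2 D hD)⟩

theorem Gn.trans (h : Gn m F g g') (h' : Gn m' F g' g'') (hm : m ≤ m') : Gn m F g g'' := by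
  refine ⟨?_, fun D hD => ?_⟩
  · filter_upwards [h.1, h'.1] with y h1 h2
    exact (h1.and h2).mono fun n hn => hn.1.trans hn.2
  · filter_upwards [h.2 D hD, h'.2 D fun t => (hD t).mono hm le_rfl] with y h1 h2 h3
    exact h2 (h1 h3).dn

/-- The partition coded by a function. -/
def par (e : ℕ → ℕ) (j : ℕ) : ℕ := ∑ l ∈ Finset.range j, (e l + 1)

theorem par_succ (e : ℕ → ℕ) (j : ℕ) : par e (j + 1) = par e j + (e j + 1) :=
  Finset.sum_range_succ _ _

theorem par_strictMono (e : ℕ → ℕ) : StrictMono (par e) :=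
  strictMono_nat_of_lt_succ fun j => by rw [par_succ]; omega

theorem Gn.freq [CountableInterFilter F] (h : Gn m F g g') {R : Y → ℕ → ℕ → ℕ → Prop}
    (hR : ∀ j σ v, Measurable[m] fun y => R y j σ v) :
    ∀ᶠ y in F, (∀ j σ n, ∃ v, n ≤ v ∧ R y j σ v) →
      ∀ n, ∃ j, n ≤ j ∧ R y j (par (g' y) j) (g' y j) := by
  have h1 := eventually_countable_forall.2 fun n => h.2
    (fun t y => ∃ j, n ≤ j ∧ j < t.length ∧ R y j (par (fun l => t.getD l 0) j) (t.getD j 0))
    fun t => Measurable.exists fun j => measurable_const.and (measurable_const.and (hR _ _ _))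
  filter_upwards [h1] with y h2 h3 n
  obtain ⟨t, ⟨j, h4, h5, h6⟩, -, h7⟩ := h2 n (fun s => by
    obtain ⟨u, ⟨h4, h5⟩, h6⟩ := exists_fol s (g y) (le_max_left s.length n)
    obtain ⟨v, h7, h8⟩ := h3 u.length (par (fun l => u.getD l 0) u.length) (g y u.length)
    refine ⟨u ++ [v], ⟨u.length, h6 ▸ le_max_right _ _, by simp, ?_⟩,
      h4.trans (List.prefix_append _ _), fun i hi hi' => ?_⟩
    · have : par (fun l => (u ++ [v]).getD l 0) u.length = par (fun l => u.getD l 0) u.length :=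
        Finset.sum_congr rfl fun l hl =>
          congrArg (· + 1) (getD_of_pre (List.prefix_append _ _) (Finset.mem_range.1 hl))
      rwa [this, getD_concat]
    · by_cases h : i < u.length
      · rw [getD_of_pre (List.prefix_append _ _) h]; exact (h5 i hi h).ge
      · obtain rfl : i = u.length := by simp at hi'; omega
        rwa [getD_concat]) []
  have : par (fun l => t.getD l 0) j = par (g' y) j := Finset.sum_congr rfl fun l hl =>
    congrArg (· + 1) (h7 l (Nat.zero_le _) ((Finset.mem_range.1 hl).trans h5))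
  exact ⟨j, h4, by rwa [this, h7 j (Nat.zero_le _) h5] at h6⟩

end Pool.Agent.Lib.MP_6245c4_gt.FA
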