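import Pool.Agent.Shared.RealForcing.Obj
import Pool.Agent.Lib.MP_6245c4_gt.FA.Ord

/-! Hechler forcing over a long chain of mutually generic functions keeps a well-ordered family
unbounded. -/

namespace Pool.Agent.Lib.MP_6245c4_gt.FA

open Pool.Agent.Shared.RealForcing Set Filter Cond MeasureTheory Cardinal Obj

variable {Λ J W : Type} [LinearOrder W]

/-- The family `b` is unbounded in the extension by `k`. -/
def Keeps (b : W → Pt Λ J → ℕ → ℕ) (k : Obj Λ J) : Prop :=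
  ∀ f : Pt Λ J → ℕ → ℕ, Ms k.A f → ∃ ξ, ∀ᶠ G in k.F, ∃ᶠ n in atTop, f G n < b ξ G n

/-- An initial approximation together with an increasing family of functions. -/
structure Scale (Λ J W : Type) [LinearOrder W] where
  k : Obj Λ J
  b : W → Pt Λ J → ℕ → ℕ
  ms : ∀ ξ, Ms k.A (b ξ)
  mono : ∀ ξ η, ξ < η → ∀ᶠ G in k.F, ∀ᶠ n in atTop, b ξ G n ≤ b η G n

variable [Reg W] {B : Scale Λ J W} {k : Obj Λ J}

theorem Keeps.many (h : Keeps B.b k) (hk : B.k ≤ k) {I : Type} [Countable I]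
    {f : I → Pt Λ J → ℕ → ℕ} (hf : ∀ i, Ms k.A (f i)) :
    ∃ ξ₀, ∀ ξ, ξ₀ < ξ → ∀ i, ∀ᶠ G in k.F, ∃ᶠ n in atTop, f i G n < B.b ξ G n := by
  choose ξ hξ using fun i => h (f i) (hf i)
  obtain ⟨η, hη⟩ := Reg.bdd_countable ξ
  refine ⟨η, fun ζ hζ i => ?_⟩
  filter_upwards [hξ i, ev hk (B.mono _ _ ((hη i).trans hζ))] with G h1 h2
  exact (h1.and_eventually h2).mono fun n hn => hn.1.trans_le hn.2

theorem keeps_uni {I : Type} [Nonempty I] {c : I → Obj Λ J} (hc : ∀ i j, c i ≤ c j ∨ c j ≤ c i)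
    (h0 : ∀ i, B.k ≤ c i) (h : ∀ i, Keeps B.b (c i)) : Keeps B.b (uni c) := by
  intro f hf
  obtain ⟨Z, hZ1, hZ2, hZ3⟩ := exists_countable_supp_fun hf
  by_cases hcase : ∃ i, Z ⊆ (c i).A
  · obtain ⟨i, hi⟩ := hcase
    obtain ⟨ξ, hξ⟩ := h i f (hZ3.mono' hi)
    exact ⟨ξ, ev (le_uni hc i) hξ⟩
  have := hZ2.to_subtype
  choose v hv using fun z : Z => mem_iUnion.1 (hZ1 z.2)
  choose g hg1 hg2 using fun z : Z => (ext (le_uni hc (v z))).exists_interp hf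
  choose ξ hξ using fun z : Z => (h (v z)).many (h0 _) (I := Unit)
    (f := fun _ => g z) fun _ => hg1 z
  obtain ⟨η, hη⟩ := Reg.bdd_countable ξ
  refine ⟨η, ?_⟩
  simp only [frequently_atTop]
  refine eventually_countable_forall.2 fun m => ?_
  have hb : Ms (uni c).A (B.b η) :=
    (B.ms η).mono' ((h0 (Classical.arbitrary I)).trans (le_uni hc _)).1
  by_contra hcon
  obtain ⟨q, hq, -, h1⟩ := Ms.exists_not (N := (uni c).N) (A := (uni c).A)
    (φ := fun G => ∃ n ≥ m, f G n < B.b η G n)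
    (by let := Sig J (uni c).A; exact show Measurable _ by fun_prop) (top_in _)
    fun h => hcon (fo_top.1 h)
  obtain ⟨i, hi⟩ := exists_in_of_uni hc hq
  obtain ⟨z, hz, hzi⟩ := not_subset.1 fun h => hcase ⟨i, h⟩
  have h2 : q.In (c (v ⟨z, hz⟩)).A :=
    hi.mono ((hc i (v ⟨z, hz⟩)).resolve_right fun h => hzi (h.1 (hv ⟨z, hz⟩))).1
  have h3 : Fo _ _ q fun G => ∀ n : {n // m ≤ n}, B.b η G n ≤ g ⟨z, hz⟩ G n :=
    Fo.forall fun n => hg2 ⟨z, hz⟩ (B.b η) ((B.ms η).mono' (h0 _).1) q n h2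
      (h1.imp fun G hG => not_lt.1 fun h => hG ⟨n, n.2, h⟩)
  obtain ⟨G, h4, h5⟩ := (h3.and (Fo.of_ev (hξ ⟨z, hz⟩ η (hη _) ()) q)).ex h2
  obtain ⟨n, hn, h6⟩ := frequently_atTop.1 h5 m
  exact absurd h6 (not_lt.2 (h4 ⟨n, hn⟩))

omit [LinearOrder W] [Reg W] in
/-- The generic function runs into every dense set of stems. -/
theorem step_fl {a : Λ} {Z : J → Pt Λ J → ℕ → ℕ → Prop} (ha : a ∉ k.A)
    (hZ : ∀ j i v, Ms k.A fun G => Z j G i v)
    (hs : StepAt (k.step a Z).N k.A a (k.step a Z).A Z) {D : List ℕ → Pt Λ J → Prop}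
    (hD : ∀ t, Ms k.A (D t)) (h : ∀ F₀ s, ∀ᶠ G in k.F, ∃ t, D t G ∧ Allowed Z F₀ s t G) :
    ∀ᶠ G in (k.step a Z).F, Fl (gen a G) fun t => D t G := by
  refine eventually_countable_forall.2 fun s => ev_of_dense fun p₀ hp₀ => ?_
  obtain ⟨p, hp, hpp, h1⟩ := hs.ext_len hp₀ (le_max_left _ s.length)
  have h2 : s.length ≤ (p.s a).length := h1 ▸ le_max_right _ _
  obtain ⟨s', ⟨h3, h4⟩, h5⟩ := exists_fol s (fun i => (p.s a).getD i 0) h2
  obtain ⟨r, hr, h6, t, h7⟩ := Fo.decide_exists (N := k.N)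
    (φ := fun t G => D t G ∧ Allowed Z (p.F a) s' t G)
    (fun t => (hD t).and (ms_allowed hZ _ _ _)) (res_in k.A p) (Fo.of_ev (h _ _) _)
  obtain ⟨G₀, -, h8, -⟩ := h7.ex hr
  obtain ⟨t₀, ⟨h9, h10⟩, h11⟩ := exists_fol (p.s a) (fun i => t.getD i 0) (h5 ▸ h8.length_le)
  have e := ext (le_step ha Z)
  have h12 : Le (k.step a Z).N ((glue k.A r p).upd a t₀ (p.F a)) p :=
    upd_glue_le e.cl' ha hr (e.le_up h6 (res_in _ p)) h9 (Finset.Subset.refl _)
      fun j hj i hi hi' => ⟨r, (mem_step ..).2 ⟨hr, h7.imp fun G hG => by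
        rw [h10 i hi hi']; exact hG.2.2 j hj i (h5 ▸ hi) (h11 ▸ hi')⟩, hr, Le.refl _ _⟩
  have h13 := upd_in (glue_in (A := k.A) (hr.mono hs.sub) hp) hs.mem t₀ (p.F a)
  have h14 : Le (k.step a Z).N ((glue k.A r p).upd a t₀ (p.F a)) r :=
    (glue_le_left e.cl' hr p).upd_left e.cl' hr ha _ _
  refine ⟨_, h13, h12.trans hpp, (((e.fo h7).le h14 h13 (hr.mono hs.sub)).and
    (Fo.forall fun i : Fin t₀.length => fo_gen hs.mem h13 (i := i) (by simp))).imp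
      fun G hG => ⟨t, hG.1.1, h3.trans h8, fun i hi hi' => ?_⟩⟩
  have h15 := hG.2 ⟨i, h11 ▸ hi'⟩
  rw [upd_s_self] at h15
  rw [h15]
  by_cases h16 : i < (p.s a).length
  · rw [getD_of_pre h8 (h5 ▸ h16), h4 i hi (h5 ▸ h16), getD_of_pre h9 h16]
  · exact (h10 i (not_lt.1 h16) (h11 ▸ hi')).symm

variable [LinearOrder J] [Reg J]

theorem exists_top (hΛ : #J < #Λ) {I : Type} [LinearOrder I] (hI : #I ≤ #J) {c : I → Obj Λ J}
    {g : I → Pt Λ J → ℕ → ℕ} (hs : ∀ i, #(c i).A ≤ #J) (hg : ∀ i, Ms (c i).A (g i))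
    (hc : ∀ i j, i < j → c i ≤ c j ∧ Gn (Sig J (c i).A) (c j).F (g i) (g j)) :
    ∃ (k' : Obj Λ J) (d : Pt Λ J → ℕ → ℕ), #k'.A ≤ #J ∧ Ms k'.A d ∧
      (∀ i, c i ≤ k' ∧ Gn (Sig J (c i).A) k'.F (g i) d) ∧
      ∀ B : Scale Λ J W, Nonempty I → (∀ i, B.k ≤ c i ∧ Keeps B.b (c i)) → Keeps B.b k' := by
  classical
  have hch := chain_of_lt fun i j h => (hc i j h).1
  have hk : #(uni c).A ≤ #J := mk_uni_le hI hs
  have hle := le_uni hch
  obtain ⟨a, ha⟩ : ∃ a, a ∉ (uni c).A := by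
    by_contra hc
    push Not at hc
    rw [eq_univ_of_forall hc, mk_univ] at hk
    exact absurd hΛ (not_lt.2 hk)
  obtain ⟨e⟩ : Nonempty (I ↪ J) := hI
  let gJ : J → Pt Λ J → ℕ → ℕ := Function.extend e g 0
  have hge : ∀ i, gJ (e i) = g i := fun i => e.injective.extend_apply _ _ i
  have hgJ : ∀ j, Ms (uni c).A (gJ j) := by
    intro j
    by_cases h : ∃ i, e i = j
    · obtain ⟨i, rfl⟩ := h
      rw [hge]; exact (hg i).mono' (hle i).1
    · simp only [gJ, Function.extend_apply' _ _ _ h]; exact Ms.const _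
  let Z : J → Pt Λ J → ℕ → ℕ → Prop := fun j G i v => gJ j G i ≤ v
  have hZ : ∀ j i v, Ms (uni c).A fun G => Z j G i v := fun j i v => by
    let := Sig J (uni c).A
    have := hgJ j
    exact show Measurable fun G => gJ j G i ≤ v by fun_prop
  have hst := stepAt ha hZ fun F₀ i m => Eventually.of_forall fun G =>
    ⟨max m (F₀.sup fun j => gJ j G i), le_max_left _ _, fun j hj =>
      le_max_of_le_right (Finset.le_sup (f := fun j => gJ j G i) hj)⟩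
  have KF : ∀ (F₀ : Finset J) i, ∃ ζ, i ≤ ζ ∧ ∀ η, ζ ≤ η → ∀ᶠ G in (uni c).F,
      ∀ D, Dn (g η G) D → ∀ s, ∃ t, D t ∧ Allowed Z F₀ s t G := by
    intro F₀ i
    obtain ⟨ζ, -, hζ⟩ := (insert i (F₀.preimage e e.injective.injOn)).exists_max_image id
      (Finset.insert_nonempty _ _)
    refine ⟨ζ, hζ i (Finset.mem_insert_self _ _), fun η hη => ?_⟩
    have h1 : ∀ j ∈ F₀, ∀ᶠ G in (uni c).F, ∀ᶠ n in atTop, gJ j G n ≤ g η G n := by
      intro j hj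
      by_cases h : ∃ i, e i = j
      · obtain ⟨τ, rfl⟩ := h
        rw [hge]
        rcases ((hζ τ (Finset.mem_insert_of_mem (Finset.mem_preimage.2 hj))).trans
          hη).lt_or_eq with h | h
        · exact ev (hle η) (hc τ η h).2.1
        · exact Eventually.of_forall fun G => Eventually.of_forall fun n => by
            rw [show τ = η from h]
      · simp [gJ, Function.extend_apply' _ _ _ h]
    filter_upwards [(eventually_all_finset F₀).2 h1] with G h2 D hD s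
    obtain ⟨N, hN⟩ := eventually_atTop.1 ((eventually_all_finset F₀).2 h2)
    obtain ⟨u, ⟨h3, h4⟩, h5⟩ := exists_fol s (fun i => F₀.sup fun j => gJ j G i)
      (le_max_left s.length N)
    obtain ⟨t, h6, h7, h8⟩ := hD u
    refine ⟨t, h6, h3.trans h7, fun j hj i hi hi' => ?_⟩
    by_cases h : i < u.length
    · change gJ j G i ≤ _
      rw [getD_of_pre h7 h, h4 i hi h]
      exact Finset.le_sup (f := fun j => gJ j G i) hj
    · exact (hN i ((le_max_right _ _).trans (h5 ▸ not_lt.1 h)) j hj).trans (h8 i (not_lt.1 h) hi')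
  have KA : ∀ (F₀ : Finset J) i (D : List ℕ → Pt Λ J → Prop), (∀ t, Ms (c i).A (D t)) →
      ∀ᶠ G in (uni c).F, (Dn (g i G) fun t => D t G) → ∀ s, ∃ t, D t G ∧ Allowed Z F₀ s t G := by
    intro F₀ i D hD
    obtain ⟨ζ, h1, h2⟩ := KF F₀ i
    rcases h1.lt_or_eq with h | rfl
    · filter_upwards [h2 ζ le_rfl, ev (hle ζ) ((hc i ζ h).2.2 D hD)] with G h3 h4 h5
      exact h3 _ (h4 h5).dn
    · exact (h2 i le_rfl).mono fun G h3 => h3 _
  refine ⟨(uni c).step a Z, gen a, mk_step_le hk _ _, ms_gen (mem_insert _ _),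
    fun i => ⟨(hle i).trans (le_step ha Z), ?_, fun D hD => ?_⟩, fun B _ hB f hf => ?_⟩
  · simpa [Z, hge] using hst.allowed (e i)
  · have h1 : Ms (c i).A fun G => Dn (g i G) fun t => D t G := @ms_dn _ (Sig J _) _ _ (hg i) hD
    refine (step_fl ha hZ hst (D := fun t G => (Dn (g i G) fun t => D t G) → D t G)
      (fun t => Ms.mono' (@Measurable.imp _ (Sig J _) _ _ h1 (hD t)) (hle i).1)
      fun F₀ s => (KA F₀ i D hD).mono fun G h2 => ?_).mono fun G h2 h3 s =>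
        let ⟨t, h4, h5⟩ := h2 s; ⟨t, h4 h3, h5⟩
    by_cases h3 : Dn (g i G) fun t => D t G
    · exact let ⟨t, h4, h5⟩ := h2 h3 s; ⟨t, fun _ => h4, h5⟩
    · exact ⟨s, fun h => absurd h h3, List.prefix_rfl, fun _ _ i h h' => absurd h' (not_lt.2 h)⟩
  obtain ⟨E, hE1, hE2, hE3⟩ := (ext (le_step ha Z)).exists_step_interp ha hZ mem_step hf
  have key : ∀ (k₀ : Obj Λ J) (κ : Type) [Countable κ] (v : κ → I), k₀ ≤ uni c → B.k ≤ k₀ →
      Keeps B.b k₀ → (∀ t n w, Ms k₀.A (E t n w)) → (∀ τ, Ms k₀.A (g (v τ))) →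
      (∀ F₀, ∃ τ, ∀ D : List ℕ → Pt Λ J → Prop, (∀ t, Ms k₀.A (D t)) → ∀ᶠ G in (uni c).F,
        (Dn (g (v τ) G) fun t => D t G) → ∀ s, ∃ t, D t G ∧ Allowed Z F₀ s t G) →
      ∃ ξ, ∀ᶠ G in ((uni c).step a Z).F, ∃ᶠ n in atTop, f G n < B.b ξ G n := by
    intro k₀ κ _ v h1 h2 h3 h4 h5 h6
    let := Sig J k₀.A
    obtain ⟨ξ₀, hξ⟩ := h3.many h2 (I := κ × List ℕ)
      (f := fun x G n => sInf {w | ∃ t, E t n w G ∧ Abv x.2 (g (v x.1) G) t})
      fun x => measurable_pi_lambda _ fun n => measurable_natInf fun w =>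
        Measurable.exists fun t => (h4 t n w).and (ms_abv (h5 _) _ _)
    obtain ⟨ξ, hξ'⟩ := Reg.exists_gt ξ₀
    have hb : Measurable (B.b ξ) := (B.ms ξ).mono' h2.1
    refine ⟨ξ, hE3 (B.b ξ) ((B.ms ξ).mono' (h2.trans h1).1) fun s F₀ m => ?_⟩
    obtain ⟨τ, h7⟩ := h6 F₀
    filter_upwards [h7 (fun t G => ∃ n w, m ≤ n ∧ w < B.b ξ G n ∧ E t n w G)
      (fun t => Measurable.exists fun n => Measurable.exists fun w => measurable_const.and
        ((measurable_const.lt (hb.eval (a := n))).and (h4 t n w))),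
      ev h1 (eventually_countable_forall.2 fun s => hξ ξ hξ' (τ, s)),
      eventually_countable_forall.2 fun s => eventually_countable_forall.2 (hE2 s {e (v τ)})]
      with G h8 h9 h10
    obtain ⟨t, ⟨n, w, h11⟩, h12⟩ := h8 (fun u => by
      obtain ⟨n, hn, h11⟩ := frequently_atTop.1 (h9 u) m
      obtain ⟨t, h12, h13⟩ := Nat.sInf_mem (s := {w | ∃ t, E t n w G ∧ Abv u (g (v τ) G) t})
        (let ⟨t, w, h⟩ := h10 u n; ⟨w, t, h.1, h.2.1, fun i hi hi' =>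
          hge (v τ) ▸ h.2.2 _ (Finset.mem_singleton_self _) i hi hi'⟩)
      exact ⟨t, ⟨n, _, hn, h11, h12⟩, h13⟩) s
    exact ⟨n, t, w, h11.1, h11.2.1, h11.2.2, h12⟩
  obtain ⟨T, hT1, hT2, hT3⟩ := exists_countable_supp
    (φ := fun x : List ℕ × ℕ × ℕ => E x.1 x.2.1 x.2.2) fun x => hE1 _ _ _
  by_cases hcase : ∃ i, T ⊆ (c i).A
  · obtain ⟨i, hi⟩ := hcase
    exact key (c i) Unit (fun _ => i) (hle i) (hB i).1 (hB i).2
      (fun t n w => (hT3 (t, n, w)).mono' hi) (fun _ => hg i) fun F₀ => ⟨(), KA F₀ i⟩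
  · have := hT2.to_subtype
    choose v hv using fun z : T => mem_iUnion.1 (hT1 z.2)
    refine key (uni c) T v le_rfl ((hB (Classical.arbitrary I)).1.trans (hle _))
      (keeps_uni hch (fun i => (hB i).1) fun i => (hB i).2) hE1
      (fun τ => (hg _).mono' (hle _).1) fun F₀ => ?_
    obtain ⟨ζ, -, h1⟩ := KF F₀ (Classical.arbitrary I)
    obtain ⟨z, hz, hzi⟩ := not_subset.1 fun h => hcase ⟨ζ, h⟩
    refine ⟨⟨z, hz⟩, fun D _ => (h1 _ (not_lt.1 fun h => ?_)).mono fun G h2 => h2 _⟩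
    exact hzi ((hc _ _ h).1.1 (hv ⟨z, hz⟩))

theorem exists_scale [WellFoundedLT W] (hΛ : #J < #Λ) (hW : #W ≤ #J) :
    ∃ B : Scale Λ J W, #B.k.A ≤ #J ∧ Keeps B.b B.k := by
  obtain ⟨f, hf⟩ := exists_seq (W := W) (σ := Obj Λ J × (Pt Λ J → ℕ → ℕ))
    (fun w f s => #s.1.A ≤ #J ∧ Ms s.1.A s.2 ∧ ∀ v : Iio w, (f v).1 ≤ s.1 ∧
      Gn (Sig J (f v).1.A) s.1.F (f v).2 s.2) (by
      intro w f hf
      obtain ⟨k', d, h1, h2, h3, -⟩ := exists_top (W := W) hΛ ((Reg.iio w).le.trans hW)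
        (c := fun v => (f v).1) (g := fun v => (f v).2) (fun v => (hf v).1) (fun v => (hf v).2.1)
        fun u v huv => (hf v).2.2 ⟨u.1, huv⟩
      exact ⟨(k', d), h1, h2, h3⟩)
  have hlt : ∀ v w, v < w → (f v).1 ≤ (f w).1 := fun v w h => ((hf w).2.2 ⟨v, h⟩).1
  have hc := chain_of_lt hlt
  refine ⟨⟨uni fun v => (f v).1, fun v => (f v).2, fun v => (hf v).2.1.mono' (le_uni hc v).1,
    fun v w h => ev (le_uni hc w) ((hf w).2.2 ⟨v, h⟩).2.1⟩, mk_uni_le hW fun v => (hf v).1,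
    fun g hg => ?_⟩
  obtain ⟨Z, hZ1, hZ2, hZ3⟩ := exists_countable_supp_fun hg
  obtain ⟨v, hv⟩ := exists_sub_of_countable hlt hZ2 hZ1
  obtain ⟨w, hw⟩ := Reg.exists_gt v
  let := Sig J (f v).1.A
  have h1 : Measurable g := hZ3.mono' hv
  refine ⟨w, ev (le_uni hc w) ((((hf w).2.2 ⟨v, hw⟩).2.freq (R := fun G j _ x => g G j < x)
    fun j _ x => (h1.eval (a := j)).lt measurable_const).mono fun G hG => ?_)⟩
  exact frequently_atTop.2 (hG fun j _ n => ⟨max n (g G j + 1), le_max_left _ _,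
    lt_max_of_lt_right (Nat.lt_succ_self _)⟩)

end Pool.Agent.Lib.MP_6245c4_gt.FA
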