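import Pool.Agent.Lib.MP_6245c4_gt.Cantor
import Pool.Agent.Lib.MP_6245c4_gt.FA.Top

/-! The system of approximations; the bounding number and the groupwise density number are small,
and cardinals are preserved. -/

namespace Pool.Agent.Lib.MP_6245c4_gt.FA

open Pool.Agent.Lib.MP_2739cb_lc Pool.Agent.Shared.RealForcing Set Filter Cardinal MeasureTheory
open Sys

section

variable {K Y : Type} [Preorder K]

/-- Chains of size at most `μ` are bounded. -/
def Bdd (K : Type) [Preorder K] (μ : Cardinal.{0}) : Prop :=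
  ∀ (I : Type) [LinearOrder I] (c : I → K), #I ≤ μ → (∀ u v, u < v → c u ≤ c v) → ∃ k, ∀ i, c i ≤ k

/-- Chains of mutually generic functions of size at most `μ` have strict upper bounds. -/
def HasTop (s : Sys K Y) (μ : Cardinal.{0}) : Prop :=
  ∀ (I : Type) [LinearOrder I] [Nonempty I] (c : I → K) (g : I → Y → ℕ → ℕ), #I ≤ μ →
    (∀ i, s.Ms (c i) (g i)) →
    (∀ i j, i < j → c i ≤ c j ∧ Gn (s.m (c i)) (s.F (c j)) (g i) (g j)) →
      ∃ k d, s.Ms k d ∧ ∀ i, c i ≤ k ∧ Gn (s.m (c i)) (s.F k) (g i) d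

end

section

variable {Λ J W : Type} [LinearOrder W] [Reg W] [LinearOrder J] [Reg J]

def InC (B : Scale Λ J W) (k : Obj Λ J) : Prop := B.k ≤ k ∧ #k.A ≤ #J ∧ Keeps B.b k

theorem bdd_inC (B : Scale Λ J W) (hB : InC B B.k) : Bdd {k // InC B k} #J := by
  intro I _ c hI hc
  rcases isEmpty_or_nonempty I with h | h
  · exact ⟨⟨B.k, hB⟩, fun i => isEmptyElim i⟩
  · have h1 := chain_of_lt (c := fun i => (c i).1) hc
    exact ⟨⟨_, (c (Classical.arbitrary I)).2.1.trans (Obj.le_uni h1 _),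
      mk_uni_le hI fun i => (c i).2.2.1, keeps_uni h1 (fun i => (c i).2.1) fun i => (c i).2.2.2⟩,
      Obj.le_uni h1⟩

/-- The approximations that keep the family unbounded. -/
noncomputable def apx (B : Scale Λ J W) (hB : InC B B.k) : Sys {k // InC B k} (Pt Λ J) where
  k0 := ⟨B.k, hB⟩
  k0_le k := k.2.1
  m k := Sig J k.1.A
  F k := k.1.F
  m_mono _ _ h := Sig_mono h.1
  F_anti _ _ h := (Obj.ext h).GF_le
  sigma _ := inferInstance
  neBot := ⟨fun h => by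
    obtain ⟨_, -, h1⟩ := exists_gen (Cond.top_in B.k.A) (φ := fun _ => False)
      (h ▸ eventually_bot : ∀ᶠ _ in B.k.F, False)
    exact h1⟩
  refl _ _ _ h := (Obj.ext h).reflect_ev
  ccc _ := ccc_GF _ _
  ub I _ c hI hc :=
    bdd_inC B hB I c (hI.trans (succ_aleph0 ▸ Order.succ_le_of_lt Reg.unc)) hc

theorem hasTop_apx (hΛ : #J < #Λ) (B : Scale Λ J W) (hB : InC B B.k) : HasTop (apx B hB) #J := by
  intro I _ _ c g hI hg hc
  obtain ⟨k, d, h1, h2, h3, h4⟩ := exists_top (W := W) hΛ hI (c := fun i => (c i).1)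
    (fun i => (c i).2.2.1) hg hc
  exact ⟨⟨k, (c (Classical.arbitrary I)).2.1.trans (h3 _).1, h1,
    h4 B inferInstance fun i => ⟨(c i).2.1, (c i).2.2.2⟩⟩, d, h2, h3⟩

end

variable {K Y : Type} [Preorder K] {s : Sys K Y}

theorem unbounded {W I : Type} {b : W → Y → ℕ → ℕ} (hb : ∀ ξ, s.Ms s.k0 (b ξ))
    (hk : ∀ k (f : Y → ℕ → ℕ), s.Ms k f → ∃ ξ, ∀ᶠ y in s.F k, ∃ᶠ n in atTop, f y n < b ξ y n)
    (U : GU (s.rand I).Cd) : ∃ F, Unbounded (El U) (cl U om) F ∧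
    CardLe (El U) F (cl U (oN (#W).ord)) := by
  let A : W → Nm (s.rand I).Cd := fun ξ => (s.rand I).fnNm fun y => b ξ y.1
  replace hb : ∀ ξ, (s.rand I).Ms (s.rand I).k0 fun y => b ξ y.1 := fun ξ => Ms.fst (hb ξ)
  refine ⟨_, ⟨fun f hf => ?_, fun g hg => ?_⟩, cardLe_setNm A (fun _ _ => True) (by simp)⟩
  · obtain ⟨f, rfl⟩ := cl_surj f
    exact wlog_set f A _ U hf fun U ξ _ e => e ▸ isFun_fnNm (lev_k0 U) (hb ξ)
  · obtain ⟨g, rfl⟩ := cl_surj g
    revert hg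
    refine wlog_dense (fun k _ => exists_fn k g) U (lev_k0 U) fun U k hk' ⟨f, hf, h⟩ hU hg => ?_
    obtain ⟨g₀, h1, h2⟩ := @exists_bound _ (s.m k) _ _ (mu I) _ f hf
    obtain ⟨ξ, hξ⟩ := hk k g₀ h1
    refine ⟨_, el_setNm A ξ trivial, fun h3 => ?_⟩
    rw [h U hU hg, leStar_fnNm hU ((hb ξ).up hk') hf] at h3
    obtain ⟨y, h4, h5, h6⟩ := (h3.and ((ev_of_ae hU (rand_fst hξ)).and
      (ev_of_ae hU (E := fun y => ∀ᶠ n in atTop, f y n ≤ g₀ y.1 n)
        (rand_ev.2 (Eventually.of_forall h2))))).exists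
    obtain ⟨n, h7, h8, h9⟩ := (h5.and_eventually (h4.and h6)).exists
    omega

theorem gFamily {W : Type} [LinearOrder W] [Reg W] (U : GU (s.rand W).Cd) :
    ∃ F, GFamily (El U) (cl U om) F ∧ CardLe (El U) F (cl U (oN (#W).ord)) := by
  let r := s.rand W
  obtain ⟨pw, hpw⟩ := exists_pow (P := r.Cd) om
  let T : W → Type := fun ξ => {t : K × (Y × Om W → Set ℕ) // r.Ms t.1 t.2 ∧ DepOn (Iio ξ) t.2}
  let Z : W → Nm r.Cd := fun ξ => setNm (fun t : T ξ => r.sbNm t.1.2) fun t U => lev t.1.1 U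
  let Ψ : W → ∀ U : GU r.Cd, MU U → Prop := fun ξ U a => InfSub (El U) (cl U om) a ∧
    ¬ ∃ z, El U z (cl U (Z ξ)) ∧ InfSub (El U) (cl U om) z ∧ AlmostSub (El U) (cl U om) z a
  let G : W → Nm r.Cd := fun ξ => sepN (Ψ ξ) pw
  have hG : ∀ ξ U a, El U a (cl U (G ξ)) ↔ Ψ ξ U a := fun ξ U a => by
    rw [el_sepN (Ψ ξ), hpw]; exact ⟨fun h => h.2, fun h => ⟨h.1.1, h⟩⟩
  refine ⟨_, ⟨fun Γ hΓ => ?_, fun a ha => ?_⟩, cardLe_setNm G (fun _ _ => True) (by simp)⟩
  · obtain ⟨Γ, rfl⟩ := cl_surj Γ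
    refine wlog_set Γ G _ U hΓ fun U ξ _ e => ?_
    rw [e]
    refine ⟨fun a ha => ((hG ξ U a).1 ha).1, fun a b ha hb hab => (hG ξ U b).2
      ⟨hb, fun ⟨z, h1, h2, h3⟩ => ((hG ξ U a).1 ha).2 ⟨z, h1, h2, almostSub_trans h2.1 h3 hab⟩⟩,
      fun p hp => ?_⟩
    obtain ⟨p, rfl⟩ := cl_surj p
    clear e
    revert hp
    refine wlog_dense (fun k _ => exists_fn k p) U (lev_k0 U) fun U k _ ⟨π, hπ, h⟩ hU hp => ?_
    have e := h U hU hp.1
    rw [e] at hp ⊢
    clear e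
    have h1 := strictMono_of_isPartition hU hπ hp
    obtain ⟨T₀, hT₀, h2⟩ := @exists_depOn_fun _ _ (s.m k) π hπ
    have := (hT₀.insert ξ).to_subtype
    obtain ⟨ζ, hζ⟩ := Reg.bdd_countable fun t : (insert ξ T₀ : Set W) => t.1
    let I : Y × Om W → Set ℕ := fun y => {i | y.2 ζ i = true}
    have hI : r.Ms k I := by
      let := r.m k
      have := ms_coord s k ζ
      exact measurable_set_iff.2 fun i => show Measurable fun y : Y × Om W =>
        y.2 ζ i = true by fun_prop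
    have h3 : ev (fun y => ∀ n, ∃ m, n ≤ m ∧ m ∈ I y) U := by
      refine ev_of_ae hU (rand_ev.2 (Eventually.of_forall fun x => ?_))
      exact (measurePreserving_eval_infinitePi (fun _ : W => nu) ζ).quasiMeasurePreserving.ae
        (ae_all_iff.2 fun n => ae_exists_eq (Ici_infinite n) true)
    have ha : r.Ms k fun y => {x | ∃ i, i ∈ I y ∧ π y i ≤ x ∧ x < π y (i + 1)} := by
      let := r.m k
      exact measurable_set_iff.2 fun x => show Measurable fun y =>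
        ∃ i, i ∈ I y ∧ π y i ≤ x ∧ x < π y (i + 1) by fun_prop
    refine ⟨_, _, (infSub_sbNm hU hI).2 h3, isBlocks_sbNm hU hπ hI, (hG ξ U _).2
      ⟨(infSub_sbNm hU ha).2 ((h1.and h3).imp fun y hy n => ?_), fun ⟨z, h4, h5, h6⟩ => ?_⟩⟩
    · obtain ⟨m, h4, h5⟩ := hy.2 n
      exact ⟨π y m, h4.trans hy.1.le_apply, m, h5, le_rfl, hy.1 (Nat.lt_succ_self m)⟩
    · obtain ⟨z, rfl⟩ := cl_surj z
      clear hp h3
      revert h6; revert h5; revert h1; revert hU
      refine wlog_set z _ _ U h4 fun U t ht e hU h1 h5 h6 => ?_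
      rw [e] at h5 h6
      clear e
      revert h6; revert h5; revert h1
      refine wlog_lev U hU ht fun U k' hk ht hU h1 h5 h6 => ?_
      rw [infSub_sbNm hU (t.2.1.up ht)] at h5
      rw [almostSub_sbNm hU (t.2.1.up ht) (ha.up hk)] at h6
      have h7 := ev_fresh hU (f := fun y => (π y, t.1.2 y))
        (Measurable.prodMk (hπ.up hk) (t.2.1.up ht))
        ((h2.mono subset_union_left).prod (t.2.2.mono subset_union_right)) (ζ := ζ)
        (fun h => h.elim (fun h => lt_irrefl _ (hζ ⟨ζ, Or.inr h⟩))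
          fun h => lt_asymm h (hζ ⟨ξ, Or.inl rfl⟩))
        (Q := fun x => (∀ i j, i < j → x.1.1 i < x.1.1 j) → (∀ n, ∃ m, n ≤ m ∧ m ∈ x.1.2) →
          ¬ ∃ N, ∀ n, N ≤ n → n ∈ x.1.2 → ∃ i, x.2 i = true ∧ x.1.1 i ≤ n ∧ n < x.1.1 (i + 1))
        (by fun_prop) fun b => ae_not_sub_blocks b.1 b.2
      obtain ⟨y, h8, h9, h10, h11⟩ := (h1.and (h5.and (h6.and h7))).exists
      exact h11 h8 h9 h10
  · obtain ⟨a, rfl⟩ := cl_surj a
    revert ha
    refine wlog_dense (fun k _ => exists_sb k a) U (lev_k0 U) fun U k _ ⟨b, hb, h⟩ hU ha => ?_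
    obtain ⟨T₀, hT₀, h2⟩ := @exists_depOn_set _ _ (s.m k) b hb
    have := hT₀.to_subtype
    obtain ⟨ξ, hξ⟩ := Reg.bdd_countable fun t : T₀ => t.1
    refine ⟨_, el_setNm G ξ trivial, fun h3 => ((hG ξ U _).1 h3).2 ⟨_, ?_, ha,
      _, el_nn_om 0, fun _ h _ => h⟩⟩
    rw [h U hU ha.1]
    exact el_setNm (fun t : T ξ => r.sbNm t.1.2)
      ⟨(k, b), hb, h2.mono fun t ht => hξ ⟨t, ht⟩⟩ hU

/-- No injection of an uncountable set of size at most `μ` into a smaller set is added. -/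
theorem no_collapse {μ : Cardinal.{0}} (hK : Bdd K μ) (hμ : ℵ₀ ≤ μ) {ι κ : Type} (h1 : #ι ≤ μ)
    (h2 : #κ < #ι) (h3 : ℵ₀ < #ι) (Φ : ι → κ → GU s.Cd → Prop) [∀ i j, Dec (Φ i j)]
    (Ψ : GU s.Cd → Prop) [Dec Ψ] (H1 : ∀ U i, Ψ U → Ex (Φ i) U)
    (H2 : ∀ U i i' j, Ψ U → Φ i j U → Φ i' j U → i = i') (U : GU s.Cd) : ¬ Ψ U := by
  intro h
  obtain ⟨p, hp⟩ := exists_frc h
  obtain ⟨_, _⟩ := exists_wellFoundedLT ι
  have : Nonempty κ := by
    have : Nonempty ι := mk_ne_zero_iff.1 (zero_le.trans_lt h3).ne'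
    exact Ex.elim U (H1 U (Classical.arbitrary ι) h) fun _ j _ => ⟨j⟩
  have : Nonempty s.Cd := ⟨⊤⟩
  obtain ⟨f, hf⟩ := exists_seq (W := ι) (σ := s.Cd × κ)
    (fun w f q => q.1 ≤ p ∧ Frc q.1 (Φ w q.2) ∧ ∀ v : Iio w, (f v).1.k ≤ q.1.k) (by
      intro w f hf
      obtain ⟨k₁, h4⟩ := hK (WithBot (Iio w)) (fun v => v.elim p.k fun v => (f v).1.k)
        (by
          rw [show #(WithBot (Iio w)) = #(Iio w) + 1 from mk_option]
          exact add_le_of_le hμ ((mk_set_le _).trans h1) (one_le_aleph0.trans hμ)) (by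
          rintro (_ | u) (_ | v) huv
          · exact le_rfl
          · exact (hf v).1.1
          · exact absurd huv not_lt_bot
          · exact (hf v).2.2 ⟨u.1, show u < v from WithBot.coe_lt_coe.1 huv⟩)
      have h5 : p.k ≤ k₁ := h4 none
      let p₁ : s.Cd := ⟨k₁, p.S, p.ms.up h5, pos_up h5 p.ms p.pos⟩
      have h6 : p₁ ≤ p := ⟨h5, Eventually.of_forall fun _ h => h⟩
      obtain ⟨q, hq, j, h7⟩ := s_of_forall (a := RO.ex fun j => val (Φ w j)) (p := p₁)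
        (fun U hU => H1 U w (hp.mono h6 U hU)) p₁ le_rfl
      exact ⟨(q, j), hq.trans h6, frc_of_val h7, fun v => le_trans (h4 (some v)) hq.1⟩)
  obtain ⟨k, hk⟩ := hK ι (fun i => (f i).1.k) h1 fun u v h => (hf v).2.2 ⟨u, h⟩
  obtain ⟨j, hj⟩ : ∃ j, ¬ {i | (f i).2 = j}.Countable := by
    by_contra hc
    push Not at hc
    have h4 : #ι ≤ #κ * ℵ₀ := by
      rw [← mk_univ, show (univ : Set ι) = ⋃ j, {i | (f i).2 = j} by ext i; simp]
      exact (mk_iUnion_le _).trans (mul_le_mul' le_rfl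
        (ciSup_le' fun j => le_aleph0_iff_set_countable.2 (hc j)))
    exact absurd (mul_lt_of_lt h3.le h2 h3) (not_lt.2 h4)
  have : Uncountable {i | (f i).2 = j} := not_countable_iff.1 fun h => hj (countable_coe_iff.1 h)
  let := s.m k
  obtain ⟨t, h4, h5⟩ := (s.ccc k).exists_linked (ι := {i | (f i).2 = j}) (fun i => (f i).1.S)
    (fun i => (f i).1.ms.up (hk i)) (fun i => pos_up (hk i) (f i).1.ms (f i).1.pos) 2
  obtain ⟨i, i', h6, rfl⟩ := Finset.card_eq_two.1 h4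
  let q : s.Cd := ⟨k, fun y => (f i).1.S y ∧ (f i').1.S y,
    ((f i).1.ms.up (hk i)).and ((f i').1.ms.up (hk i')), h5.mono fun y hy =>
      ⟨hy i (by simp), hy i' (by simp)⟩⟩
  have h7 : q ≤ (f i).1 := ⟨hk i, Eventually.of_forall fun _ h => h.1⟩
  have h8 : q ≤ (f i').1 := ⟨hk i', Eventually.of_forall fun _ h => h.2⟩
  obtain ⟨V, hV⟩ := exists_GU q
  have h9 : Φ i (f i).2 V := (hf i).2.1.mono h7 V hV
  have h10 : Φ i' (f i').2 V := (hf i').2.1.mono h8 V hV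
  rw [show (f i).2 = j from i.2] at h9
  rw [show (f i').2 = j from i'.2] at h10
  exact h6 (Subtype.ext (H2 V i i' j (hp.mono (h7.trans (hf i).1) V hV) h9 h10))

/-- Infinite cardinals up to `μ` are preserved. -/
theorem isCard_oN {μ θ : Cardinal.{0}} (hK : Bdd K μ) (h1 : θ ≤ μ) (h2 : ℵ₀ < θ) (U : GU s.Cd) :
    IsCard (El U) (cl U (oN θ.ord)) := by
  refine ⟨isOrd_cl_on _, fun α hα ⟨f, hf, hf'⟩ => ?_⟩
  obtain ⟨α, rfl⟩ := cl_surj α
  obtain ⟨f, rfl⟩ := cl_surj f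
  refine absurd (?_ : False) id
  revert hf'; revert hf
  refine wlog_on α _ U hα fun U a ha e hf hf' => ?_
  rw [e] at hf
  let o : ∀ b : Ordinal.{0}, b.ToType → Ordinal.{0} := fun b i =>
    Ordinal.typein (α := b.ToType) (· < ·) i
  refine no_collapse hK (h2.le.trans h1) (ι := θ.ord.ToType) (κ := a.ToType) (by simpa using h1)
    (by simpa using lt_ord.1 ha) (by simpa using h2)
    (fun i j U => App (El U) (cl U f) (cl U (oN (o _ j))) (cl U (oN (o _ i))))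
    (fun U => IsInj (El U) (cl U f) (cl U (oN a)) (cl U (oN θ.ord)) ∧
      ∀ b, El U b (cl U (oN θ.ord)) → ∃ a, App (El U) (cl U f) a b)
    (fun U i h => ?_) (fun U i i' j h h3 h4 => ?_) U ⟨hf, hf'⟩
  · obtain ⟨x, hx⟩ := h.2 _ (el_on.2 (Ordinal.typein_lt_self i))
    obtain ⟨x, rfl⟩ := cl_surj x
    have h3 := (MU_zfc.app_mem h.1.1 hx).1
    clear h
    revert hx
    refine wlog_on x a U h3 fun U b hb e hx => ?_
    obtain ⟨j, rfl⟩ := Ordinal.typein_surj (α := a.ToType) (· < ·) (o := b) (by simpa using hb)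
    exact Ex.intro j (e ▸ hx)
  · exact Ordinal.typein_injective _ (cl_on_inj (MU_zfc.app_unique h.1.1 h3 h4))

section

open Ordinal

instance decIsCard {P : Type} [Preorder P] (x : Nm P) :
    Dec (no_index fun U => IsCard (El U) (cl U x)) := by
  unfold IsCard CardEq; infer_instance

theorem countable_below {P : Type} [Preorder P] [OrderTop P] {U : GU P} {α : MU U}
    (h : El U α (cl U (oN (ℵ₁ : Cardinal.{0}).ord))) : CardLe (El U) α (cl U om) := by
  obtain ⟨α, rfl⟩ := cl_surj α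
  refine wlog_on α _ U h fun U a ha e => ?_
  rw [e]
  refine cardLe_of_cover (fun i : a.ToType => oN (typein (α := a.ToType) (· < ·) i))
    (by simpa [← succ_aleph0, Order.lt_succ_iff] using lt_ord.1 ha) _ (fun _ => True)
    (fun U z _ hz => wlog_on z a U hz fun U b hb e => ?_) trivial
  obtain ⟨j, rfl⟩ := typein_surj (α := a.ToType) (· < ·) (o := b) (by simpa using hb)
  exact Ex.intro j e

theorem cardLe_alephs {P : Type} [Preorder P] [OrderTop P] {U : GU P} (o : Ordinal.{0}) :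
    CardLe (El U) (cl U (oN o)) (cl U (setNm (fun i : o.ToType =>
      oN (ℵ_ (typein (α := o.ToType) (· < ·) i + 1)).ord) fun _ _ => True)) := by
  refine ⟨cl U (relNm (fun i : o.ToType => oN (typein (α := o.ToType) (· < ·) i))
    (fun i => oN (ℵ_ (typein (α := o.ToType) (· < ·) i + 1)).ord) fun _ _ => True),
    isFun_relNm _ _ _ _ _ (fun _ => True) (fun U i _ _ => ⟨el_on.2 (typein_lt_self i),
      el_setNm (fun i : o.ToType => oN (ℵ_ (typein (α := o.ToType) (· < ·) i + 1)).ord) i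
        trivial⟩) (fun U i j _ _ _ e => by rw [typein_injective _ (cl_on_inj e)])
      (fun U z _ hz => ?_) trivial, fun a a' c h1 h2 => ?_⟩
  · refine wlog_on z o U hz fun U b hb e => ?_
    obtain ⟨j, rfl⟩ := typein_surj (α := o.ToType) (· < ·) (o := b) (by simpa using hb)
    exact Ex.intro j ⟨trivial, e⟩
  · obtain ⟨a, rfl⟩ := cl_surj a
    obtain ⟨a', rfl⟩ := cl_surj a'
    obtain ⟨c, rfl⟩ := cl_surj c
    revert h2
    refine wlog_rel a c _ _ _ U h1 fun U i _ e1 e2 h2 => ?_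
    revert e1 e2
    refine wlog_rel a' c _ _ _ U h2 fun U j _ e3 e4 e1 e2 => ?_
    have h := aleph.injective (ord_injective (cl_on_inj (e2.symm.trans e4)))
    rw [← Order.succ_eq_add_one, ← Order.succ_eq_add_one] at h
    rw [e1, e3, Order.succ_injective h]

end

end Pool.Agent.Lib.MP_6245c4_gt.FA
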