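import Pool.Agent.Lib.MP_6245c4_gt.FA.Model

/-! The model: a union of many Menger sets is Menger. -/

namespace Pool.Agent.Lib.MP_6245c4_gt.FA

open Pool.Agent.Lib.MP_2739cb_lc Pool.Agent.Shared.RealForcing Set Filter Cardinal MeasureTheory
open Sys

/-- `n` is outside `a`, and `c` is at most the next element of `a`. -/
def Gp (a : Set ℕ) (n c : ℕ) : Prop := n ∉ a ∧ ∀ i, n ≤ i → i ∈ a → c ≤ i

theorem exists_gp {π h : ℕ → ℕ} (hπ : StrictMono π) {K : ℕ × ℕ → Prop} {j N m : ℕ} {u : Finset ℕ}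
    (h1 : Ch π K j N m u) (h2 : ∀ l, N ≤ l → m < h l) :
    ∃ t : ℕ × ℕ, j ≤ t.1 ∧ Gp (blocks π (range h)) t.1 t.2 ∧ K t ∧ t.2 ∈ u := by
  obtain ⟨t, ⟨h3, h4, h5⟩, h6⟩ := h1
  obtain ⟨l, hl⟩ : ∃ l : Fin (N + 1), ∀ i, ¬ (t l.castSucc ≤ h i ∧ h i < t l.succ) := by
    by_contra hc
    push Not at hc
    choose i h7 h8 using hc
    have h9 : ∀ l, i l < N := fun l => not_le.1 fun h9 =>
      lt_asymm (h2 _ h9) ((h8 l).trans_le ((h3.monotone (Fin.le_last _)).trans h5))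
    have h10 := Fintype.card_le_of_injective (fun l => (⟨i l, h9 l⟩ : Fin N)) fun l l' e => by
      have e' : i l = i l' := congrArg Fin.val e
      have h11 := h3.lt_iff_lt.1 ((h7 l).trans_lt (e' ▸ h8 l'))
      have h12 := h3.lt_iff_lt.1 ((h7 l').trans_lt (e' ▸ h8 l))
      rw [Fin.lt_def] at h11 h12
      exact Fin.ext (by simp at h11 h12; omega)
    simp at h10
  obtain ⟨c, h7, h8, h9⟩ := h6 l
  have key : ∀ x, π (t l.castSucc) ≤ x → x ∈ blocks π (range h) → π (t l.succ) ≤ x := by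
    rintro x h10 ⟨_, ⟨i, rfl⟩, h12, h13⟩
    exact not_lt.1 fun h11 => hl i ⟨Nat.le_of_lt_succ (hπ.lt_iff_lt.1 (h10.trans_lt h13)),
      hπ.lt_iff_lt.1 (h12.trans_lt h11)⟩
  exact ⟨(π (t l.castSucc), c), h4.trans ((h3.monotone (Fin.zero_le _)).trans hπ.le_apply),
    ⟨fun h10 => (hπ (h3 Fin.castSucc_lt_succ)).not_ge (key _ le_rfl h10),
      fun x h10 h11 => h8.trans (key x h10 h11)⟩, h9, h7⟩

theorem ms_blocks {X : Type} [MeasurableSpace X] {π h : X → ℕ → ℕ} (hπ : Measurable π)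
    (hh : Measurable h) (i : ℕ) : Measurable fun y => i ∈ blocks (π y) (range (h y)) :=
  Measurable.exists fun j => (Measurable.exists fun l => (hh.eval (a := l)).eq_const j).and
    ((hπ.eval.le' measurable_const).and (measurable_const.lt (hπ.eval (a := j + 1))))

variable {K Y I : Type} [Preorder K] {s : Sys K Y}

theorem exists_sparse (S τ X : Nm (s.rand I).Cd) (b : ℕ → Nm (s.rand I).Cd)
    (Ψ : GU (s.rand I).Cd → Prop) [Dec Ψ] {k₂ : K}
    {EK : ℕ × ℕ → Y × Om I → Prop} (hK : ∀ x, (s.rand I).Ms k₂ (EK x))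
    (h0 : ∀ U, Ψ U → IsTopology (El U) (cl U S) (cl U τ) ∧ Sub (El U) (cl U X) (cl U S) ∧
      Menger (El U) (cl U om) (cl U τ) (cl U X))
    (hc : ∀ U x n, lev k₂ U → Ψ U → El U (cl U x) (cl U X) →
      Ex (fun c U => ev (EK (n, c)) U ∧ Bs τ b c x U) U)
    {π : Y → ℕ → ℕ} (hπ : s.Ms k₂ π) (hπ' : ∀ y, StrictMono (π y)) :
    ∃ k₃, k₂ ≤ k₃ ∧ ∃ γ : Y → ℕ → ℕ, s.Ms k₃ γ ∧ ∀ k (h : Y → ℕ → ℕ), k₃ ≤ k → s.Ms k h →
      (∀ᶠ y in s.F k, ∀ᶠ l in atTop, γ y l ≤ h y l) →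
      ∀ U x j, lev k U → Ψ U → El U (cl U x) (cl U X) → Ex (fun (t : ℕ × ℕ) U =>
        ev (fun y => j ≤ t.1 ∧ Gp (blocks (π y.1) (range (h y.1))) t.1 t.2 ∧ EK t y) U ∧
          Bs τ b t.2 x U) U := by
  let r := s.rand I
  have hπ₂ : r.Ms k₂ fun y => π y.1 := Ms.fst hπ
  have hch : ∀ j N m u, r.Ms k₂ fun y => Ch (π y.1) (fun x => EK x y) j N m u := fun j N m u =>
    @measurable_ch _ (r.m k₂) _ _ hπ₂ hK j N m u
  choose Γ hΓd hΓ1 hΓ2 using fun j => menger_array S τ X b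
    (fun n t U => ev (fun y => Ch (π y.1) (fun x => EK x y) j (j + n) t.1 t.2) U)
    (fun U => lev k₂ U ∧ Ψ U) (fun U h => h0 U h.2) (by
      rintro U x n ⟨h1, h2⟩ hx
      revert hx; revert h2
      refine wlog_dense (fun k _ => capture (fun c U => Bs τ b c x U) k) U h1
        fun U k₃ hk₃ ⟨EB, hEB, hB'⟩ hU h2 hx => ?_
      let := r.m k₃
      have hK' : ∀ x, Measurable (EK x) := fun x => (hK x).up hk₃
      have h3 : ev (fun y => ∀ n, ∃ c, EK (n, c) y ∧ EB c y) U := by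
        by_contra hn
        revert hx; revert h2
        refine wlog_not_all U hU (fun n => show Measurable _ by fun_prop) hn
          fun U n hU hn h2 hx => hn ?_
        have h4 := hc U x n (hU.mono hk₃) h2 hx
        clear hn h2 hx
        revert hU
        exact Ex.elim U h4 fun U c h4 hU =>
          (h4.1.and ((hB' c U hU).1 h4.2)).imp fun y hy => ⟨c, hy⟩
      exact ev_elim U hU (fun t => ((hch _ _ _ _).up hk₃).and (Measurable.forall fun c => hEB _))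
        (h3.imp fun y hy => exists_ch (K := fun x => EK x y) (Bb := fun c => EB c y)
          (hπ' y.1) hy j (j + n)) fun U t hU h =>
          Ex.intro t ⟨h.imp fun _ h => h.1, fun c => (hB' c U hU).2 (h.imp fun _ h => h.2 c)⟩)
  obtain ⟨k₃, hk₃, EΓ, hEΓ, hΓ⟩ := capture (fun x : ℕ × ℕ × ℕ => Γ x.1 x.2.1 x.2.2) k₂
  let f : Y × Om I → ℕ → ℕ := fun y N =>
    ∑ j ∈ Finset.range (N + 1), sInf {m | EΓ (j, N - j, m) y}
  have hf : r.Ms k₃ f := by
    let := r.m k₃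
    exact measurable_pi_lambda _ fun N =>
      Finset.measurable_sum _ fun j _ => measurable_natInf fun m => hEΓ _
  obtain ⟨g, hg1, hg2⟩ := @exists_bound _ (s.m k₃) _ _ (mu I) _ f hf
  refine ⟨k₃, hk₃, fun y l => par (g y) (l + 1), ?_, fun k h hk hh hγ U x j hU h2 hx => ?_⟩
  · let := s.m k₃
    exact measurable_pi_lambda _ fun l =>
      Finset.measurable_sum _ fun j _ => (hg1.eval (a := j)).add_const 1
  revert hx; revert h2
  refine wlog_dense (fun k _ => capture (fun c U => Bs τ b c x U) k) U hU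
    fun U k₅ hk₅ ⟨EB, hEB, hB'⟩ hU h2 hx => ?_
  have hk₄ := hk.trans hk₅
  let := r.m k₅
  have hK' : ∀ x, Measurable (EK x) := fun x => (hK x).up (hk₃.trans hk₄)
  have hEΓ' : ∀ x, Measurable (EΓ x) := fun x => (hEΓ x).up hk₄
  have hch' : ∀ j N m u, Measurable fun y : Y × Om I =>
    Ch (π y.1) (fun x => EK x y) j N m u := fun j N m u => (hch j N m u).up (hk₃.trans hk₄)
  have h3 : ev (fun y => ∀ x : ℕ × ℕ, ∃ m, EΓ (x.1, x.2, m) y) U := by
    by_contra hn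
    clear hx
    revert h2
    refine wlog_not_all U hU (fun n => show Measurable _ by fun_prop) hn fun U n hU hn h2 => hn ?_
    have h4 := hΓ1 n.1 U n.2 ⟨hU.mono (hk₃.trans hk₄), h2⟩
    clear hn h2
    revert hU
    exact Ex.elim U h4 fun U m h4 hU =>
      ((hΓ (n.1, n.2, m) U (hU.mono hk₄)).1 h4).imp fun y hy => ⟨m, hy⟩
  have hm : ∀ j n m, Measurable fun y => EΓ (j, n, m) y → ∃ t : ℕ × Finset ℕ, t.1 ≤ m ∧
      Ch (π y.1) (fun x => EK x y) j (j + n) t.1 t.2 ∧ ∀ c : t.2, EB c y := fun j n m =>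
    (hEΓ' _).imp (Measurable.exists fun t => measurable_const.and
      ((hch' _ _ _ _).and (Measurable.forall fun c => hEB _)))
  have h4 : ev (fun y => ∀ j, ∃ n, ∀ m, EΓ (j, n, m) y → ∃ t : ℕ × Finset ℕ, t.1 ≤ m ∧
      Ch (π y.1) (fun x => EK x y) j (j + n) t.1 t.2 ∧ ∀ c : t.2, EB c y) U := by
    by_contra hn
    clear h3
    revert hx; revert h2
    refine wlog_not_all U hU (fun j => Measurable.exists fun n => Measurable.forall (hm j n)) hn
      fun U j hU hn h2 hx => hn ?_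
    have h4 := hΓ2 j U x ⟨hU.mono (hk₃.trans hk₄), h2⟩ hx
    clear hn h2 hx
    revert hU
    refine Ex.elim U h4 fun U n h4 hU => ev.imp ?_ fun y hy => ⟨n, hy⟩
    by_contra hn
    revert h4
    refine wlog_not_all U hU (hm j n) hn fun U m hU hn h4 => hn (ev_imp hU (hEΓ' _) fun h5 => ?_)
    have h6 := h4.elim m ((hΓ (j, n, m) U (hU.mono hk₄)).2 h5)
    clear hn h4 h5
    revert hU
    exact Ex.elim U h6 fun U t h6 hU => (h6.2.1.and (ev_finite fun c : t.2 =>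
      (hB' c U hU).1 (h6.2.2 c))).imp fun y hy => ⟨t, h6.1, hy⟩
  have h5 : ev (fun y => ∀ᶠ N in atTop, f y N ≤ g y.1 N) U :=
    ev_of_ae (hU.mono hk₄) (rand_ev.2 (Eventually.of_forall hg2))
  have h5' : ev (fun y => ∀ᶠ l in atTop, par (g y.1) (l + 1) ≤ h y.1 l) U :=
    ev_of_ae (hU.mono hk₅) (rand_fst hγ)
  have h6 : ev (fun y => ∃ t : ℕ × ℕ, (j ≤ t.1 ∧
      Gp (blocks (π y.1) (range (h y.1))) t.1 t.2 ∧ EK t y) ∧ EB t.2 y) U := by
    refine (h3.and (h4.and (h5.and h5'))).imp fun y ⟨h3, h4, h5⟩ => ?_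
    obtain ⟨N₀, h5⟩ := eventually_atTop.1 (h5.1.and h5.2)
    obtain ⟨n, h4⟩ := h4 (max j N₀)
    obtain ⟨t, h6, h7, h8⟩ := h4 _ (Nat.sInf_mem (s := {m | EΓ (max j N₀, n, m) y}) (h3 (_, n)))
    have h9' : N₀ ≤ max j N₀ + n := (le_max_right _ _).trans (Nat.le_add_right _ _)
    have h9 : t.1 ≤ g y.1 (max j N₀ + n) := by
      refine h6.trans (le_trans ?_ (h5 _ h9').1)
      have := Finset.single_le_sum (f := fun i => sInf {m | EΓ (i, max j N₀ + n - i, m) y})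
        (fun _ _ => Nat.zero_le _)
        (Finset.mem_range.2 (Nat.lt_succ_of_le (Nat.le_add_right (max j N₀) n)))
      simpa only [Nat.add_sub_cancel_left] using this
    obtain ⟨r, h10, h11, h12, h13⟩ := exists_gp (h := h y.1) (hπ' y.1) h7 fun l hl => by
      have h10 := (par_strictMono (g y.1)).monotone (Nat.succ_le_succ hl)
      have h11 := (h5 l (h9'.trans hl)).2
      rw [Nat.succ_eq_add_one, Nat.succ_eq_add_one, par_succ] at h10
      omega
    exact ⟨r, ⟨(le_max_left _ _).trans h10, h11, h12⟩, h8 ⟨_, h13⟩⟩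
  have h7 := ms_blocks (hπ₂.up (hk₃.trans hk₄)) ((Ms.fst (I := I) hh).up hk₅)
  refine ev_elim U hU (fun t => ?_) h6 fun U t hU h7 =>
    Ex.intro t ⟨h7.imp fun _ h => h.1, (hB' _ U hU).2 (h7.imp fun _ h => h.2)⟩
  exact (measurable_const.and (((h7 _).not.and (Measurable.forall fun i =>
    measurable_const.imp ((h7 i).imp measurable_const))).and (hK' _))).and (hEB _)

/-- Every point of `X` is, infinitely often, in a basic set that refines the cover and whose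
index is bounded by `g`. -/
def Good (τ X : Nm (s.rand I).Cd) (b : ℕ → Nm (s.rand I).Cd) (Ψ : GU (s.rand I).Cd → Prop)
    (EK : ℕ × ℕ → Y × Om I → Prop) (k : K) (g : Y → ℕ → ℕ) : Prop :=
  ∀ U x j, lev k U → Ψ U → El U (cl U x) (cl U X) → Ex (fun (t : ℕ × ℕ) U =>
    ev (fun y => j ≤ t.1 ∧ t.2 ≤ g y.1 t.1 ∧ EK t y) U ∧ Bs τ b t.2 x U) U

theorem HasTop.one {μ : Cardinal.{0}} (hT : HasTop s μ) (hμ : 1 ≤ μ) {k : K} {g : Y → ℕ → ℕ}
    (hg : s.Ms k g) : ∃ k' d, s.Ms k' d ∧ k ≤ k' ∧ Gn (s.m k) (s.F k') g d :=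
  let ⟨k', d, h1, h2⟩ := hT Unit (fun _ => k) (fun _ => g) (by simpa using hμ) (fun _ => hg)
    fun _ _ h => absurd h (lt_irrefl _)
  ⟨k', d, h1, h2 ()⟩

theorem exists_good {μ : Cardinal.{0}} (hT : HasTop s μ) (hμ : 1 ≤ μ)
    (S τ X : Nm (s.rand I).Cd) (b : ℕ → Nm (s.rand I).Cd)
    (Ψ : GU (s.rand I).Cd → Prop) [Dec Ψ] {k : K}
    {EK : ℕ × ℕ → Y × Om I → Prop} (hK : ∀ x, (s.rand I).Ms k (EK x))
    (h0 : ∀ U, Ψ U → IsTopology (El U) (cl U S) (cl U τ) ∧ Sub (El U) (cl U X) (cl U S) ∧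
      Menger (El U) (cl U om) (cl U τ) (cl U X))
    (hc : ∀ U x n, lev k U → Ψ U → El U (cl U x) (cl U X) →
      Ex (fun c U => ev (EK (n, c)) U ∧ Bs τ b c x U) U)
    {g : Y → ℕ → ℕ} (hg : s.Ms k g) :
    ∃ k' g', s.Ms k' g' ∧ k ≤ k' ∧ Gn (s.m k) (s.F k') g g' ∧ Good τ X b Ψ EK k' g' := by
  classical
  obtain ⟨k₂, d, hd, l₂, G₂⟩ := hT.one hμ hg
  obtain ⟨k₃, e, he, l₃, G₃⟩ := hT.one hμ hd
  have hπ : s.Ms k₃ fun y => par (e y) := by
    let := s.m k₃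
    exact measurable_pi_lambda _ fun l =>
      Finset.measurable_sum _ fun j _ => (Measurable.eval (a := j) he).add_const 1
  obtain ⟨k₄, l₄, γ, hγ, H⟩ := exists_sparse S τ X b Ψ (fun x => (hK x).up (l₂.trans l₃)) h0
    (fun U x n hU => hc U x n (hU.mono (l₂.trans l₃))) hπ fun y => par_strictMono _
  obtain ⟨k₅, h, hh, l₅, G₅⟩ := hT.one hμ hγ
  let a : Y → Set ℕ := fun y => blocks (par (e y)) (range (h y))
  have ha : ∀ y l, par (e y) (h y l) ∈ a y := fun y l =>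
    ⟨_, ⟨l, rfl⟩, le_rfl, par_strictMono _ (Nat.lt_succ_self _)⟩
  let g' : Y → ℕ → ℕ := fun y n =>
    if n ∈ a y then d y n else g y n + sInf {i | n ≤ i ∧ i ∈ a y}
  refine ⟨k₅, g', ?_, l₂.trans (l₃.trans (l₄.trans l₅)), ⟨?_, fun D hD => ?_⟩,
    fun U x j hU h1 h2 => ?_⟩
  · let := s.m k₅
    have h1 := ms_blocks (hπ.up (l₄.trans l₅)) hh
    exact measurable_pi_lambda _ fun n => Measurable.ite (h1 n).setOf
      (Measurable.eval (a := n) (hd.up (l₃.trans (l₄.trans l₅))))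
      ((Measurable.eval (a := n) (hg.up (l₂.trans (l₃.trans (l₄.trans l₅))))).add
        (measurable_natInf fun i => measurable_const.and (h1 i)))
  · refine (ev_up (l₃.trans (l₄.trans l₅)) G₂.1).mono fun y hy => hy.mono fun n hn => ?_
    simp only [g']
    split_ifs
    · exact hn
    · exact Nat.le_add_right _ _
  · let β : Y → ℕ → ℕ := fun y σ => σ + par (fun l => g y l + d y l) σ
    let R : Y → ℕ → ℕ → Prop := fun y σ v => ∀ u : List ℕ, u.length = σ →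
      (∀ i, i < σ → u.getD i 0 ≤ β y σ) → ∃ t, D t y ∧ Fol u (d y) t ∧ t.length ≤ v
    have hR : ∀ σ v, s.Ms k₂ fun y => R y σ v := by
      intro σ v
      let := s.m k₂
      have h1 : Measurable fun y => β y σ := (Finset.measurable_sum _ fun l _ =>
        ((Measurable.eval (a := l) (hg.up l₂)).add (Measurable.eval (a := l) hd)).add_const
          1).const_add σ
      exact Measurable.forall fun u => measurable_const.imp ((Measurable.forall fun i =>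
        measurable_const.imp (measurable_const.le' h1)).imp (Measurable.exists fun t =>
          Measurable.and (Ms.up (hD t) l₂) ((ms_fol hd u t).and measurable_const)))
    have h1 := eventually_countable_forall.2 fun m => G₅.freq
      (R := fun y _ _ v => m ≤ v ∧ R y (par (e y) v) (e y v)) fun _ _ v => by
        let := s.m k₄
        exact measurable_const.and (measurable_app (f := fun y σ => R y σ (e y v))
          (fun σ => measurable_app (f := fun y w => R y σ w) (fun w => (hR σ w).up (l₃.trans l₄))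
            (Measurable.eval (a := v) (he.up l₄))) (Measurable.eval (a := v) (hπ.up l₄)))
    filter_upwards [h1, ev_up (l₄.trans l₅) (G₃.freq (R := fun y _ σ v => R y σ v)
      fun _ σ v => hR σ v), ev_up (l₃.trans (l₄.trans l₅)) (G₂.2 D hD)] with y h2 h3 h4 h5 u₀
    have h6 := h3 fun _ σ n => (h4 h5).bound σ (β y σ) n
    obtain ⟨l, -, h7, h8⟩ := h2 (u₀.length + par (fun i => u₀.getD i 0) u₀.length)
      (fun _ _ n => let ⟨j, h7, h8⟩ := h6 (max n _); ⟨j, le_of_max_le_left h7,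
        le_of_max_le_right h7, h8⟩) 0
    have h9 : h y l ≤ par (e y) (h y l) := (par_strictMono _).le_apply
    obtain ⟨u, ⟨h10, h11⟩, h12⟩ := exists_fol u₀ (g' y) (n := par (e y) (h y l)) (by omega)
    have h13 : ∀ (x : ℕ → ℕ) i n, i < n → x i ≤ par x n := fun x i n hi => by
      have := (par_strictMono x).monotone (Nat.succ_le_of_lt hi)
      rw [Nat.succ_eq_add_one, par_succ] at this
      omega
    obtain ⟨t, h14, ⟨h15, h16⟩, h17⟩ := h8 u h12 fun i hi => by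
      have h14 := h13 (fun l => g y l + d y l) i _ hi
      simp only [β]
      by_cases h15 : i < u₀.length
      · have := h13 (fun i => u₀.getD i 0) i _ h15
        rw [getD_of_pre h10 h15]
        omega
      · have : sInf {j | i ≤ j ∧ j ∈ a y} ≤ par (e y) (h y l) := Nat.sInf_le ⟨hi.le, ha y l⟩
        rw [h11 i (not_lt.1 h15) (h12 ▸ hi)]
        simp only [g']
        split_ifs <;> omega
    refine ⟨t, h14, h10.trans h15, fun i hi hi' => ?_⟩
    by_cases h18 : i < u.length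
    · rw [getD_of_pre h15 h18, h11 i hi h18]
    · rw [h16 i (not_lt.1 h18) hi']
      refine (if_pos (⟨_, ⟨l, rfl⟩, h12 ▸ not_lt.1 h18, ?_⟩ : i ∈ a y)).symm
      rw [par_succ]
      omega
  · have h3 : ev (fun y : Y × Om I => ∀ m, ∃ l, m ≤ h y.1 l) U := by
      refine ev_of_ae hU (rand_fst (φ := fun y => ∀ m, ∃ l, m ≤ h y l)
        (eventually_countable_forall.2 fun m => (G₅.freq (R := fun _ _ _ v => m ≤ v)
          fun _ _ _ => measurable_const).mono fun y hy => ?_))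
      obtain ⟨l, -, hl⟩ := hy (fun _ _ n => ⟨max n m, le_max_left _ _, le_max_right _ _⟩) 0
      exact ⟨l, hl⟩
    have h4 := H k₅ h l₅ hh G₅.1 U x j hU h1 h2
    clear hU h1 h2
    revert h3
    refine Ex.elim U h4 fun U t h4 h3 => Ex.intro t ⟨(h4.1.and h3).imp fun y hy =>
      ⟨hy.1.1, ?_, hy.1.2.2⟩, h4.2⟩
    obtain ⟨l, hl⟩ := hy.2 t.1
    have h5 := Nat.sInf_mem (s := {i | t.1 ≤ i ∧ i ∈ a y.1})
      ⟨_, hl.trans (par_strictMono _).le_apply, ha y.1 l⟩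
    exact ((hy.1.2.1.2 _ h5.1 h5.2).trans (Nat.le_add_left _ _)).trans (if_neg hy.1.2.1.1).ge

theorem menger_union {J : Type} [LinearOrder J] [WellFoundedLT J] [Nonempty J]
    (hT : HasTop s #J) (U : GU (s.rand I).Cd) (S τ 𝓕 X : MU U) (h1 : IsTopology (El U) S τ)
    (h2 : SecondCountable (El U) (cl U om) τ)
    (h3 : ∀ Z, El U Z 𝓕 → Sub (El U) Z S ∧ Menger (El U) (cl U om) τ Z)
    (h4 : IsUnion (El U) X 𝓕) (h5 : CardLe (El U) 𝓕 (cl U (oN (#J).ord))) :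
    Menger (El U) (cl U om) τ X := by
  intro 𝒰 C h6 h7
  obtain ⟨S, rfl⟩ := cl_surj S
  obtain ⟨τ, rfl⟩ := cl_surj τ
  obtain ⟨𝓕, rfl⟩ := cl_surj 𝓕
  obtain ⟨X, rfl⟩ := cl_surj X
  obtain ⟨𝒰, rfl⟩ := cl_surj 𝒰
  obtain ⟨C, rfl⟩ := cl_surj C
  let r := s.rand I
  obtain ⟨b, hb⟩ := exists_baseSeq τ
  obtain ⟨Xs, hXs⟩ := exists_listing 𝓕 (b := (#J).ord) (ι := J) (by simp)
  obtain ⟨Kp, hKd, hK1, hK2⟩ := menger_intro τ X 𝒰 C b
  let Ψ : GU r.Cd → Prop := fun U => IsTopology (El U) (cl U S) (cl U τ) ∧ BaseSeq τ b U ∧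
    (∀ Z, El U Z (cl U 𝓕) → Sub (El U) Z (cl U S) ∧ Menger (El U) (cl U om) (cl U τ) Z) ∧
    IsUnion (El U) (cl U X) (cl U 𝓕) ∧ CardLe (El U) (cl U 𝓕) (cl U (oN (#J).ord)) ∧
    Covers τ X 𝒰 C U
  have : Dec Ψ := by unfold Ψ; infer_instance
  have hΨ : Ψ U := ⟨h1, hb U h2, h3, h4, h5, h6, h7⟩
  change Selects X 𝒰 U
  clear h1 h2 h3 h4 h5 h6 h7
  revert hΨ
  refine wlog_dense (fun k _ => capture (fun x : ℕ × ℕ => Kp x.1 x.2) k) U (lev_k0 U)
    fun U k₁ _ ⟨EK, hEK, hK⟩ hU => ?_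
  let H := fun ξ => Good τ (Xs ξ) b (fun U => Ψ U ∧ El U (cl U (Xs ξ)) (cl U 𝓕)) EK
  have hD : ∀ k, k₁ ≤ k → ∃ k', k ≤ k' ∧ ∃ d : Y → ℕ → ℕ, s.Ms k' d ∧
      ∀ ξ, ∃ k'' g, k'' ≤ k' ∧ s.Ms k'' g ∧ H ξ k'' g ∧
        ∀ᶠ y in s.F k', ∀ᶠ i in atTop, g y i ≤ d y i := by
    intro k hk
    have hH : ∀ ξ k' g, k ≤ k' → s.Ms k' g →
        ∃ k'' g', s.Ms k'' g' ∧ k' ≤ k'' ∧ Gn (s.m k') (s.F k'') g g' ∧ H ξ k'' g' := by
      intro ξ k' g hk' hg
      refine exists_good hT (Cardinal.one_le_iff_ne_zero.2 (mk_ne_zero J)) S τ (Xs ξ) b _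
        (fun x => (hEK x).up (hk.trans hk')) (fun U h => ⟨h.1.1, h.1.2.2.1 _ h.2⟩)
        (fun U x n hU h hx => ?_) hg
      have h3 := hK1 U x n h.1.2.1 h.1.2.2.2.2.2 ((h.1.2.2.2.1 _).2 ⟨_, h.2, hx⟩)
      clear h hx
      revert hU
      exact Ex.elim U h3 fun U c h3 hU =>
        Ex.intro c ⟨(hK (n, c) U (hU.mono (hk.trans hk'))).1 h3.1, h3.2⟩
    have : Nonempty K := ⟨k⟩
    obtain ⟨f, hf⟩ := exists_seq (W := J) (σ := K × (Y → ℕ → ℕ))
      (fun w f q => k ≤ q.1 ∧ s.Ms q.1 q.2 ∧ H w q.1 q.2 ∧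
        ∀ v : Iio w, (f v).1 ≤ q.1 ∧ Gn (s.m (f v).1) (s.F q.1) (f v).2 q.2) (by
        intro w f hf
        rcases isEmpty_or_nonempty (Iio w) with h | h
        · obtain ⟨k', g', h1, h2, -, h3⟩ := hH w k (fun _ _ => 0) le_rfl measurable_const
          exact ⟨(k', g'), h2, h1, h3, fun v => isEmptyElim v⟩
        · obtain ⟨k', d, h1, h2⟩ := hT (Iio w) (fun v => (f v).1) (fun v => (f v).2) (mk_set_le _)
            (fun v => (hf v).2.1) fun u v huv => (hf v).2.2.2 ⟨u.1, huv⟩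
          have h3 : k ≤ k' := (hf (Classical.arbitrary _)).1.trans (h2 _).1
          obtain ⟨k'', g', h4, h5, h6, h7⟩ := hH w k' d h3 h1
          exact ⟨(k'', g'), h3.trans h5, h4, h7, fun v => ⟨(h2 v).1.trans h5,
            ((h2 v).2.up (s.F_anti _ _ h5)).trans h6 (s.m_mono _ _ (h2 v).1)⟩⟩)
    obtain ⟨k', d, h1, h2⟩ := hT J (fun v => (f v).1) (fun v => (f v).2) le_rfl
      (fun v => (hf v).2.1) fun u v huv => (hf v).2.2.2 ⟨u, huv⟩
    exact ⟨k', (hf (Classical.arbitrary _)).1.trans (h2 _).1, d, h1,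
      fun ξ => ⟨_, _, (h2 ξ).1, (hf ξ).2.1, (hf ξ).2.2.1, (h2 ξ).2.1⟩⟩
  refine wlog_dense hD U hU fun U k hk ⟨d, hd1, hd3⟩ hU hΨ => ?_
  have hd : r.Ms k fun y => d y.1 := Ms.fst hd1
  refine hK2 (fun n m U => ev (fun y => d y.1 n = m) U) (fun U => lev k U ∧ Ψ U)
    (fun U h => h.2.2.2.2.2.2) (fun U n h => wlog_val _ U h.1 (hd.eval n) fun U m _ h =>
      Ex.intro m h) (fun U n m m' h h' => by
        obtain ⟨y, h1, h2⟩ := (ev.and h h').exists
        exact h1.symm.trans h2)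
    (fun U x ⟨hU, h⟩ hx => ?_) U ⟨hU, hΨ⟩
  obtain ⟨Z, h1, h2⟩ := (h.2.2.2.1 _).1 hx
  obtain ⟨Z, rfl⟩ := cl_surj Z
  have h3 := hXs U Z h.2.2.2.2.1 h1
  clear hx
  revert h2; revert h1; revert h; revert hU
  refine Ex.elim U h3 fun U ξ e hU h h1 h2 => ?_
  rw [e] at h1 h2
  clear e
  obtain ⟨k', g, hk', hg, h4, h5⟩ := hd3 ξ
  let := r.m k
  have hg' : Measurable fun y : Y × Om I => g y.1 := Ms.fst (hg.up hk')
  have h6 : ev (fun y => ∃ N, ∀ i, N ≤ i → g y.1 i ≤ d y.1 i) U :=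
    ev_of_ae hU (rand_fst (h5.mono fun G hG => eventually_atTop.1 hG))
  have hd' : Measurable fun y : Y × Om I => d y.1 := hd
  have hm : ∀ N, Measurable fun y : Y × Om I => ∀ i, N ≤ i → g y.1 i ≤ d y.1 i := fun N =>
    Measurable.forall fun i => measurable_const.imp (hg'.eval.le' hd'.eval)
  revert h2; revert h1; revert h
  refine ev_elim U hU hm h6 fun U N hU h6 h h1 h2 => ?_
  have h7 := h4 U x N (hU.mono hk') ⟨h, h1⟩ h2
  clear h h1 h2
  revert h6; revert hU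
  refine Ex.elim U h7 fun U t h7 hU h6 => ?_
  revert h6; revert h7
  refine wlog_val (fun y => d y.1 t.1) U hU (hd.eval _) fun U m hU h8 h7 h6 =>
    Ex.intro (t.1, m, t.2) ⟨h8, ?_, (hK t U (hU.mono hk)).2
      (h7.1.imp fun _ h => h.2.2), h7.2⟩
  obtain ⟨y, h9, ⟨h10, h11, -⟩, h13⟩ := (h8.and (h7.1.and h6)).exists
  exact h11.trans (h9 ▸ h13 _ h10)

end Pool.Agent.Lib.MP_6245c4_gt.FA
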